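import Pool.Graph.R_pool_sql_team_seeded_620a6dc7.Results.MP_09f43a_co.Superadditive

/-!
# The critical maximum average degree of the two-edge star for three colours is at least four

`mad`, `Arrows` and `mcr` are the definitions of the library module imported above; they are
recalled in the claim.
-/

set_option autoImplicit false

namespace Pool.Agent.Results.MP_cb1d9b_co.AtLeastFour

open Pool.Agent.Results.MP_09f43a_co.Superadditive

/-- The star `S_2` with two edges: the vertex `1` is joined to `0` and `2`. -/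
def S2 : SimpleGraph (Fin 3) where
  Adj a b := a ≠ b ∧ (a = 1 ∨ b = 1)
  symm := ⟨fun _ _ h => ⟨h.1.symm, h.2.symm⟩⟩
  loopless := ⟨fun _ h => h.1 rfl⟩

instance : DecidableRel S2.Adj := fun a b => by unfold S2; infer_instance

theorem edge_count : (⊤ : S2.Subgraph).edgeSet.ncard = 2 := by
  have h : (⊤ : S2.Subgraph).edgeSet = (S2.edgeFinset : Set (Sym2 (Fin 3))) := by
    rw [SimpleGraph.coe_edgeFinset, SimpleGraph.Subgraph.edgeSet_top]
  rw [h, Set.ncard_coe_finset]
  decide

theorem mad_S2 : (4 : ℝ) / 3 ≤ mad S2 := by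
  unfold mad
  refine le_csSup (mad_set_bdd S2) ⟨⊤, ⟨0, trivial⟩, ?_⟩
  rw [edge_count]
  have : (⊤ : S2.Subgraph).verts.ncard = 3 := by
    simp [Set.ncard_univ]
  rw [this]
  norm_num

/-- `m_cr(S_2, 3) ≥ max(4, m_cr(S_2, 2) + 4/3)`. -/
theorem result : max 4 (mcr S2 2 + 4 / 3) ≤ mcr S2 3 := by
  have h0 := mad_S2
  have h1 := (Pool.Agent.Results.MP_09f43a_co.Superadditive.result (by norm_num) S2 3 0).2
  have h2 := (Pool.Agent.Results.MP_09f43a_co.Superadditive.result (by norm_num) S2 2 1).1
  have h3 := mad_le_mcr_one S2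
  refine max_le ?_ ?_
  · push_cast at h1
    linarith
  · have e : (2 + 1 : ℕ) = 3 := rfl
    rw [e] at h2
    linarith

end Pool.Agent.Results.MP_cb1d9b_co.AtLeastFour
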